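import Pool.Agent.P.MP_76760e_an.Main

open Pool.Agent.P.MP_76760e_an

/-- Answer to Q1: a C*-algebra is planar-admissible iff it is nonzero, commutative, and any two
disjoint open sigma-compact subsets of its Gelfand spectrum have disjoint closures. -/
theorem Pool.Agent.Results.MP_76760e_an.Classification.result
    (A : Type*) [NonUnitalCStarAlgebra A] :
    PlanarAdmissible A ↔ Nontrivial A ∧ (∀ x y : A, x * y = y * x) ∧
      ∀ U V : Set (WeakDual.characterSpace ℂ A), IsOpen U → IsOpen V →
        IsSigmaCompact U → IsSigmaCompact V → Disjoint U V → Disjoint (closure U) (closure V) :=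
  classification A
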