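import Pool.Agent.P.MP_76760e_an.Obstruction

open Pool.Agent.P.MP_76760e_an

/-- Negated form of Q2: a nonempty compact Hausdorff space `X` and a finite subset of the plane
lattice with the scalar extension property but without the `C(X)`-extension property. -/
theorem Pool.Agent.Results.MP_76760e_an.NotForAllCX.result :
    ∃ (X : Type) (_ : TopologicalSpace X) (_ : CompactSpace X) (_ : T2Space X) (_ : Nonempty X)
      (Λ : Finset (ℤ × ℤ)), HasExt ℂ Λ ∧ ¬ HasExt C(X, ℂ) Λ :=
  ⟨Set.Icc (-1 : ℝ) 1, inferInstance, inferInstance, inferInstance, ⟨⟨0, by norm_num⟩⟩, tri,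
    hasExt_complex_tri, not_hasExt_interval⟩
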